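import Pool.Agent.Q210.HT.Main

/-!
# Radial limits along point-independent approaches with decreasing radii

`TInf = ℕ → UnitAddCircle` is the infinite torus (the point `θ` stands for `(e^{2πiθ_n})_n`), `m`
its Haar measure, `HInfty` the space `H^∞(T^∞)`, and `radialValue f r θ = (f * P_r)(θ)` for a
finitely supported vector `r` of radii.
-/

open MeasureTheory Filter Topology Q210.HT

namespace Pool.Agent.Results.MP_8d7c8e_an.FixedApproach

/-- There are `f ∈ H^∞(T^∞)` and one radial approach, independent of the boundary point and with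
radii decreasing in `n`, along which convergence to the boundary value fails almost everywhere. -/
theorem result : ∃ f : TInf → ℂ, HInfty f ∧ ∃ r : ℕ → ℕ →₀ ℝ,
    (∀ k n, 0 ≤ r k n ∧ r k n < 1) ∧ (∀ n, Tendsto (fun k => r k n) atTop (𝓝 1)) ∧
    (∀ k n, r k (n + 1) ≤ r k n) ∧
    ∀ᵐ θ ∂m, ¬ Tendsto (fun k => radialValue f (r k) θ) atTop (𝓝 (f θ)) :=
  pointIndependent

end Pool.Agent.Results.MP_8d7c8e_an.FixedApproach
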